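import Pool.Agent.W355.FR.Stm

/-! Subtask FR-ZER. -/

set_option autoImplicit false

namespace Pool.Agent.W883.FR

open Polynomial Pool.Agent.W355.FR

theorem fib {D : ℕ} {f : ℤ[X]} (hf : f ≠ 0) (hD : f.natDegree ≤ D) {H : ℕ}
    {s : Finset (ℤ × ℤ)} (hs : s ⊆ box H) (hz : ∀ x ∈ s, hv D f x.1 x.2 = 0) (b : ℤ) :
    (s.filter (fun x => x.2 = b)).card ≤ D + 2 := by
  classical
  have hinj : Set.InjOn (fun x : ℤ × ℤ => x.1) (s.filter (fun x => x.2 = b) : Finset (ℤ × ℤ)) := by
    intro x hx y hy h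
    have h1 := (Finset.mem_filter.1 (Finset.mem_coe.1 hx)).2
    have h2 := (Finset.mem_filter.1 (Finset.mem_coe.1 hy)).2
    exact Prod.ext h (h1.trans h2.symm)
  rw [← Finset.card_image_of_injOn hinj]
  rcases eq_or_ne b 0 with hb | hb
  · have : (s.filter (fun x => x.2 = b)).image (fun x : ℤ × ℤ => x.1) ⊆ {1, -1} := by
      intro a ha
      obtain ⟨x, hx, rfl⟩ := Finset.mem_image.1 ha
      obtain ⟨hxs, hxb⟩ := Finset.mem_filter.1 hx
      have h1 := (Finset.mem_filter.1 (hs hxs)).2
      rw [hxb, hb, Int.gcd_zero_right] at h1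
      rw [Finset.mem_insert, Finset.mem_singleton]
      exact Int.natAbs_eq_iff.1 (h1.trans (by rfl : (1 : ℕ) = (1 : ℤ).natAbs))
    calc _ ≤ ({1, -1} : Finset ℤ).card := Finset.card_le_card this
      _ ≤ 2 := Finset.card_le_two
      _ ≤ D + 2 := by omega
  · let g : ℤ[X] := ∑ i ∈ Finset.range (D + 1), C (f.coeff i * b ^ (D - i)) * X ^ i
    have hgc : ∀ n, n < D + 1 → g.coeff n = f.coeff n * b ^ (D - n) := by
      intro n hn
      simp only [g, finset_sum_coeff, coeff_C_mul, coeff_X_pow]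
      rw [Finset.sum_eq_single n]
      · simp
      · intro i _ hi
        rw [if_neg (Ne.symm hi), mul_zero]
      · intro h
        exact absurd (Finset.mem_range.2 hn) h
    have hg0 : g ≠ 0 := by
      intro h
      have h1 := hgc f.natDegree (by omega)
      rw [h, coeff_zero] at h1
      have h2 : f.coeff f.natDegree ≠ 0 := by
        rw [coeff_natDegree]
        exact leadingCoeff_ne_zero.2 hf
      exact (mul_ne_zero h2 (pow_ne_zero _ hb)) h1.symm
    have hgd : g.natDegree ≤ D := by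
      refine natDegree_sum_le_of_forall_le _ _ fun i hi => ?_
      refine (natDegree_C_mul_X_pow_le _ _).trans ?_
      have := Finset.mem_range.1 hi
      omega
    have hsub : (s.filter (fun x => x.2 = b)).image (fun x : ℤ × ℤ => x.1) ⊆
        g.roots.toFinset := by
      intro a ha
      obtain ⟨x, hx, rfl⟩ := Finset.mem_image.1 ha
      obtain ⟨hxs, hxb⟩ := Finset.mem_filter.1 hx
      rw [Multiset.mem_toFinset, mem_roots hg0, IsRoot.def]
      have h1 := hz x hxs
      unfold hv at h1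
      rw [hxb] at h1
      rw [← h1]
      simp only [g, eval_finsetSum, eval_mul, eval_C, eval_pow, eval_X]
      refine Finset.sum_congr rfl fun i _ => ?_
      ring
    calc _ ≤ g.roots.toFinset.card := Finset.card_le_card hsub
      _ ≤ g.roots.card := Multiset.toFinset_card_le _
      _ ≤ g.natDegree := card_roots' g
      _ ≤ D + 2 := by omega

theorem zer : P_ZER := by
  classical
  intro D f hf hD δ hδ
  refine ⟨⌈3 * ((D : ℝ) + 2) / δ⌉₊ + 1, fun H hH s hs hz => ?_⟩
  have h1 : s.card ≤ (D + 2) * (s.image Prod.snd).card :=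
    Finset.card_le_mul_card_image s (D + 2) fun b _ => fib hf hD hs hz b
  have h2 : (s.image Prod.snd).card ≤ 2 * H + 1 := by
    have : s.image Prod.snd ⊆ Finset.Icc (-(H : ℤ)) H := by
      intro b hb
      obtain ⟨x, hx, rfl⟩ := Finset.mem_image.1 hb
      exact (Finset.mem_product.1 (Finset.mem_filter.1 (hs hx)).1).2
    refine (Finset.card_le_card this).trans ?_
    rw [Int.card_Icc]
    omega
  have h3 : (s.card : ℝ) ≤ ((D : ℝ) + 2) * (2 * H + 1) := by
    have := h1.trans (Nat.mul_le_mul_left _ h2)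
    exact_mod_cast this
  have h4 : 3 * ((D : ℝ) + 2) / δ ≤ H := by
    refine (Nat.le_ceil _).trans ?_
    exact_mod_cast (Nat.le_succ _).trans hH
  have h5 : 3 * ((D : ℝ) + 2) ≤ δ * H := by
    rw [div_le_iff₀ hδ] at h4
    linarith
  have h6 : (1 : ℝ) ≤ H := by
    have : 1 ≤ H := by omega
    exact_mod_cast this
  have h7 : (0 : ℝ) ≤ (D : ℝ) + 2 := by positivity
  calc (s.card : ℝ) ≤ ((D : ℝ) + 2) * (2 * H + 1) := h3
    _ ≤ ((D : ℝ) + 2) * (3 * H) := by
        apply mul_le_mul_of_nonneg_left _ h7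
        linarith
    _ = (3 * ((D : ℝ) + 2)) * H := by ring
    _ ≤ (δ * H) * H := by
        apply mul_le_mul_of_nonneg_right h5
        linarith
    _ = δ * (H : ℝ) ^ 2 := by ring

end Pool.Agent.W883.FR
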